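import Pool.Agent.Helper85.ES.StI1

/-!
# Project ES (MP_cb927e_an), part I, module OCL: crossings of two ridges
-/

set_option autoImplicit false

open MeasureTheory Set Filter Topology
open scoped ENNReal RealInnerProductSpace

namespace Pool.Agent.Helper64.ES

open Pool.Agent.Helper85.ES Pool.Agent.Helper20.RG Pool.Agent.Helper20.RL
open Pool.Agent.Helper68.EP (Fb DQ3 Par Dat Sy q0 q1 DD Fo Rs)
open Pool.Agent.Helper61.EP (Nn D8 trS dat Yc)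
open Pool.Agent.Helper68.ES (ag Eg th Rc hn Crit cr Lw)
open Pool.Agent.Helper68.LM (Pl BB Bd Av HL ft fm DQ)

private theorem floor_diff {α β : ℝ} (h : |α - β| ≤ 3) : ⌊β⌋ - ⌊α⌋ ∈ Finset.Icc (-3 : ℤ) 3 := by
  rw [abs_le] at h
  have e1 : ⌊β + ((3 : ℤ) : ℝ)⌋ = ⌊β⌋ + 3 := Int.floor_add_intCast β 3
  have e2 : ⌊α + ((3 : ℤ) : ℝ)⌋ = ⌊α⌋ + 3 := Int.floor_add_intCast α 3
  have h1 : ⌊α⌋ ≤ ⌊β + ((3 : ℤ) : ℝ)⌋ := Int.floor_le_floor (by push_cast; linarith [h.2])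
  have h2 : ⌊β⌋ ≤ ⌊α + ((3 : ℤ) : ℝ)⌋ := Int.floor_le_floor (by push_cast; linarith [h.1])
  rw [Finset.mem_Icc]
  constructor <;> omega

private theorem floor_diff' {x y A : ℝ} (hA : 0 < A) (h : |x - y| ≤ 3 * A) :
    ⌊y / A⌋ - ⌊x / A⌋ ∈ Finset.Icc (-3 : ℤ) 3 := by
  apply floor_diff
  rw [← sub_div, abs_div, abs_of_pos hA, div_le_iff₀ hA]
  exact h

private theorem par_translate (s₂ g c h : ℝ) (a : ℤ) (R : Set Pl) (v v' : Pl) (K : ℝ≥0∞)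
    (hR : ∀ g c : ℝ, volume (R ∩ {x : Pl | g ≤ x 0 ∧ x 0 ≤ g + (2 : ℝ) ^ a ∧
      |pr s₂ x - c| ≤ h}) ≤ K) :
    volume {x : Pl | x + v ∈ R ∧ g ≤ (x - v') 0 ∧ (x - v') 0 ≤ g + (2 : ℝ) ^ a ∧
      |pr s₂ (x - v') - c| ≤ h} ≤ K := by
  have e : {x : Pl | x + v ∈ R ∧ g ≤ (x - v') 0 ∧ (x - v') 0 ≤ g + (2 : ℝ) ^ a ∧
      |pr s₂ (x - v') - c| ≤ h} =
      (fun x : Pl => x + v) ⁻¹' (R ∩ {x : Pl | g + v 0 + v' 0 ≤ x 0 ∧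
        x 0 ≤ (g + v 0 + v' 0) + (2 : ℝ) ^ a ∧
        |pr s₂ x - (c + (v 1 - s₂ * v 0) + (v' 1 - s₂ * v' 0))| ≤ h}) := by
    ext x
    simp only [mem_ofPred_eq, mem_preimage, mem_inter_iff, PiLp.sub_apply, PiLp.add_apply, pr]
    have e1 : x 1 + v 1 - s₂ * (x 0 + v 0) - (c + (v 1 - s₂ * v 0) + (v' 1 - s₂ * v' 0)) =
        x 1 - v' 1 - s₂ * (x 0 - v' 0) - c := by ring
    rw [e1]
    constructor
    · rintro ⟨h1, h2, h3, h4⟩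
      exact ⟨h1, by linarith, by linarith, h4⟩
    · rintro ⟨h1, h2, h3, h4⟩
      exact ⟨h1, by linarith, by linarith, h4⟩
  rw [e, measure_preimage_add_right]
  exact hR _ _

/-- MODULE OCL -/
theorem hOCL (hPT : Pool.Agent.Helper20.RG.StPT) (hLGR : Pool.Agent.Helper20.RL.StLGR)
    (hECR : Pool.Agent.Helper68.EP.StECR) (hOWD : Pool.Agent.Helper85.ES.StOWD) :
    Pool.Agent.Helper85.ES.StOCL := by
  intro F V s₁ s₂ c₁ c₂ m₁ m₂ u k D η hs₁ hs₂ hF hC hD hη huk hum h1 hV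
  obtain ⟨p1, -, -, -, -, -, -, -⟩ := hPT
  obtain ⟨g1, -, -, -, -⟩ := hLGR
  obtain ⟨a, ha⟩ : ∃ a : ℤ, a = k - (u : ℤ) := ⟨_, rfl⟩
  obtain ⟨w₁, hw₁⟩ : ∃ w : ℤ, w = k - (m₁ : ℤ) := ⟨_, rfl⟩
  obtain ⟨w₂, hw₂⟩ : ∃ w : ℤ, w = k - (m₂ : ℤ) := ⟨_, rfl⟩
  have ha0 : 0 ≤ a := by omega
  have hη0 : 0 < η := by linarith
  have hwa : w₁ ≤ a + 1 := by omega
  rw [← ha] at h1
  rw [← ha, ← hw₂] at hV
  have A0 : (0 : ℝ) < (2 : ℝ) ^ a := by positivity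
  have W2 : (0 : ℝ) < (2 : ℝ) ^ w₂ := by positivity
  have hden : ∀ y : Pl, volume (F ∩ DQ 0 y) ≤ ENNReal.ofReal (D * (4 : ℝ) ^ (0 : ℤ)) := by
    intro y
    have h2 := hC y 0
    refine (measure_mono (inter_subset_inter_right F ?_)).trans (h2.trans (le_of_eq (by norm_num)))
    intro z hz
    have h3 : ∀ i, |z i - y i| ≤ (2 : ℝ) ^ 0 := by
      intro i
      have h4 := hz i
      rw [zpow_zero, div_one, div_one] at h4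
      rw [pow_zero]
      exact (Int.abs_sub_lt_one_of_floor_eq_floor h4).le
    exact ⟨h3 0, h3 1⟩
  obtain ⟨κ, hκ⟩ : ∃ κ : ℝ, κ = 1100 * D / η * ((2 : ℝ) ^ a * (3 * (2 : ℝ) ^ w₂)) := ⟨_, rfl⟩
  have hκ0 : 0 < κ := by rw [hκ]; positivity
  have hpar : ∀ g c : ℝ, volume (Rs F s₁ a 0 η ∩ {x : Pl | g ≤ x 0 ∧ x 0 ≤ g + (2 : ℝ) ^ a ∧
      |pr s₂ x - c| ≤ 3 * (2 : ℝ) ^ w₂}) ≤ ENNReal.ofReal κ := by
    intro g c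
    rw [hκ]
    exact hECR F s₁ s₂ a 0 D η g c (3 * (2 : ℝ) ^ w₂) hs₁ hs₂ hF ha0 hD hη0 hden (by positivity)
      (Or.inr (by rw [zpow_zero]; exact h1))
  -- the cells
  obtain ⟨Ix, hIx⟩ : ∃ Ix : Pl → ℤ × ℤ, Ix = fun y => (⌊y 0 / (2 : ℝ) ^ a⌋,
      ⌊pr s₂ y / (2 : ℝ) ^ w₂⌋) := ⟨_, rfl⟩
  obtain ⟨T, hT⟩ : ∃ T : Set (ℤ × ℤ), T = Ix '' V := ⟨_, rfl⟩
  have hvolV : ∑' _ : T, ENNReal.ofReal ((2 : ℝ) ^ (a + w₂)) ≤ volume V := by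
    have h2 : ∀ t : T, volume {z : Pl | Ix z = t.1} = ENNReal.ofReal ((2 : ℝ) ^ (a + w₂)) ∧
        MeasurableSet {z : Pl | Ix z = t.1} ∧ {z : Pl | Ix z = t.1} ⊆ V := by
      rintro ⟨t, ht⟩
      rw [hT] at ht
      obtain ⟨y, hy, rfl⟩ := ht
      have he : {z : Pl | Ix z = Ix y} = RQ s₂ a w₂ y := by
        ext z
        simp only [hIx, RQ, mem_ofPred_eq, Prod.mk.injEq]
      show volume {z : Pl | Ix z = Ix y} = _ ∧ MeasurableSet {z : Pl | Ix z = Ix y} ∧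
        {z : Pl | Ix z = Ix y} ⊆ V
      rw [he]
      exact ⟨(g1 s₂ a w₂ y).2.1, (g1 s₂ a w₂ y).1, hV y hy⟩
    have h3 := tsum_meas_le_meas_iUnion_of_disjoint (volume : Measure Pl)
      (As := fun t : T => {z : Pl | Ix z = t.1}) (fun t => (h2 t).2.1) (by
        intro t t' htt
        refine Set.disjoint_left.2 fun z hz hz' => htt (Subtype.ext ?_)
        exact (show Ix z = t.1 from hz).symm.trans (show Ix z = t'.1 from hz'))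
    calc ∑' _ : T, ENNReal.ofReal ((2 : ℝ) ^ (a + w₂)) = ∑' t : T, volume {z : Pl | Ix z = t.1} :=
          tsum_congr fun t => (h2 t).1.symm
      _ ≤ volume (⋃ t : T, {z : Pl | Ix z = t.1}) := h3
      _ ≤ volume V := measure_mono (iUnion_subset fun t => (h2 t).2.2)
  -- the covering
  obtain ⟨B, hB⟩ : ∃ B : ℤ × ℤ → ℤ → ℤ → Set Pl, B = fun (t : ℤ × ℤ) (g r : ℤ) => {x : Pl |
      x + (((r : ℝ) * (2 : ℝ) ^ a) • E s₁ - (2 : ℝ) ^ k • c₁) ∈ Rs F s₁ a 0 η ∧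
      ((t.1 : ℝ) + (g : ℝ)) * (2 : ℝ) ^ a ≤ (x - (2 : ℝ) ^ k • c₂) 0 ∧
      (x - (2 : ℝ) ^ k • c₂) 0 ≤ ((t.1 : ℝ) + (g : ℝ)) * (2 : ℝ) ^ a + (2 : ℝ) ^ a ∧
      |pr s₂ (x - (2 : ℝ) ^ k • c₂) - (t.2 : ℝ) * (2 : ℝ) ^ w₂| ≤ 3 * (2 : ℝ) ^ w₂} := ⟨_, rfl⟩
  have hBv : ∀ t g r, volume (B t g r) ≤ ENNReal.ofReal κ := by
    intro t g r
    rw [hB]
    exact par_translate s₂ _ _ _ a _ _ _ _ hpar
  have hcov : {x | Hit s₂ c₂ m₂ u k V x ∧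
      Hit s₁ c₁ m₁ u k {y | Rich F s₁ (k - (u : ℤ)) (k - (m₁ : ℤ)) η y} x} ⊆
      ⋃ t : T, ⋃ g ∈ Finset.Icc (-3 : ℤ) 3, ⋃ r ∈ Finset.Icc (-3 : ℤ) 3, B t.1 g r := by
    rintro x ⟨⟨y₂, hy₂, q1, q2⟩, ⟨y₁, hy₁, q3, q4⟩⟩
    rw [← ha] at q1 q3
    rw [← hw₂] at q2
    rw [← hw₁] at q4
    have hy₁' : Rich F s₁ a w₁ η y₁ := by rw [ha, hw₁]; exact hy₁
    have hwn : w₁ ≤ 0 := by
      by_contra hcon
      have h2 := hOWD F s₁ a w₁ D η y₁ hs₁ hF hC hD hη0 (by omega) hwa hy₁'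
      linarith
    refine mem_iUnion.2 ⟨⟨Ix y₂, by rw [hT]; exact mem_image_of_mem _ hy₂⟩, ?_⟩
    refine mem_iUnion₂.2 ⟨⌊(x - (2 : ℝ) ^ k • c₂) 0 / (2 : ℝ) ^ a⌋ - ⌊y₂ 0 / (2 : ℝ) ^ a⌋,
      floor_diff' A0 (by rw [abs_sub_comm]; exact q1), mem_iUnion₂.2
      ⟨⌊y₁ 0 / (2 : ℝ) ^ a⌋ - ⌊(x - (2 : ℝ) ^ k • c₁) 0 / (2 : ℝ) ^ a⌋, floor_diff' A0 q3, ?_⟩⟩
    rw [hB]
    obtain ⟨r, hr⟩ : ∃ r : ℤ, r = ⌊y₁ 0 / (2 : ℝ) ^ a⌋ -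
      ⌊(x - (2 : ℝ) ^ k • c₁) 0 / (2 : ℝ) ^ a⌋ := ⟨_, rfl⟩
    rw [← hr]
    have z0 : (x + (((r : ℝ) * (2 : ℝ) ^ a) • E s₁ - (2 : ℝ) ^ k • c₁)) 0 =
        (x - (2 : ℝ) ^ k • c₁) 0 + (r : ℝ) * (2 : ℝ) ^ a := by
      simp only [PiLp.add_apply, PiLp.sub_apply, PiLp.smul_apply, smul_eq_mul, E, (p1 1 s₁).1]
      ring
    have z1 : (x + (((r : ℝ) * (2 : ℝ) ^ a) • E s₁ - (2 : ℝ) ^ k • c₁)) 1 =
        (x - (2 : ℝ) ^ k • c₁) 1 + (r : ℝ) * (2 : ℝ) ^ a * s₁ := by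
      simp only [PiLp.add_apply, PiLp.sub_apply, PiLp.smul_apply, smul_eq_mul, E, (p1 1 s₁).2]
      ring
    refine ⟨⟨y₁, w₁, hwn, hy₁', ?_, ?_⟩, ?_, ?_, ?_⟩
    · rw [z0, add_div, mul_div_cancel_right₀ _ A0.ne', Int.floor_add_intCast, hr]
      ring
    · have e2 : pr s₁ (x + (((r : ℝ) * (2 : ℝ) ^ a) • E s₁ - (2 : ℝ) ^ k • c₁)) =
          pr s₁ (x - (2 : ℝ) ^ k • c₁) := by
        unfold pr
        rw [z0, z1]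
        ring
      rw [e2]
      have : (0 : ℝ) < (2 : ℝ) ^ w₁ := by positivity
      linarith
    · have h5 := Int.floor_le ((x - (2 : ℝ) ^ k • c₂) 0 / (2 : ℝ) ^ a)
      rw [le_div_iff₀ A0] at h5
      have e3 : (((Ix y₂).1 : ℝ) + ((⌊(x - (2 : ℝ) ^ k • c₂) 0 / (2 : ℝ) ^ a⌋ -
          ⌊y₂ 0 / (2 : ℝ) ^ a⌋ : ℤ) : ℝ)) =
          (⌊(x - (2 : ℝ) ^ k • c₂) 0 / (2 : ℝ) ^ a⌋ : ℝ) := by
        rw [hIx]
        push_cast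
        ring
      show (((Ix y₂).1 : ℝ) + ((⌊(x - (2 : ℝ) ^ k • c₂) 0 / (2 : ℝ) ^ a⌋ -
          ⌊y₂ 0 / (2 : ℝ) ^ a⌋ : ℤ) : ℝ)) * (2 : ℝ) ^ a ≤ (x - (2 : ℝ) ^ k • c₂) 0
      rw [e3]
      exact h5
    · have h5 := (Int.lt_floor_add_one ((x - (2 : ℝ) ^ k • c₂) 0 / (2 : ℝ) ^ a)).le
      rw [div_le_iff₀ A0] at h5
      have e3 : (((Ix y₂).1 : ℝ) + ((⌊(x - (2 : ℝ) ^ k • c₂) 0 / (2 : ℝ) ^ a⌋ -
          ⌊y₂ 0 / (2 : ℝ) ^ a⌋ : ℤ) : ℝ)) =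
          (⌊(x - (2 : ℝ) ^ k • c₂) 0 / (2 : ℝ) ^ a⌋ : ℝ) := by
        rw [hIx]
        push_cast
        ring
      show (x - (2 : ℝ) ^ k • c₂) 0 ≤ (((Ix y₂).1 : ℝ) +
        ((⌊(x - (2 : ℝ) ^ k • c₂) 0 / (2 : ℝ) ^ a⌋ -
          ⌊y₂ 0 / (2 : ℝ) ^ a⌋ : ℤ) : ℝ)) * (2 : ℝ) ^ a + (2 : ℝ) ^ a
      rw [e3]
      linarith
    · have h5 := Int.floor_le (pr s₂ y₂ / (2 : ℝ) ^ w₂)
      have h6 := (Int.lt_floor_add_one (pr s₂ y₂ / (2 : ℝ) ^ w₂)).le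
      rw [le_div_iff₀ W2] at h5
      rw [div_le_iff₀ W2] at h6
      have e4 : ((Ix y₂).2 : ℝ) = (⌊pr s₂ y₂ / (2 : ℝ) ^ w₂⌋ : ℝ) := by rw [hIx]
      show |pr s₂ (x - (2 : ℝ) ^ k • c₂) - ((Ix y₂).2 : ℝ) * (2 : ℝ) ^ w₂| ≤ 3 * (2 : ℝ) ^ w₂
      rw [e4]
      rw [abs_le] at q2 ⊢
      constructor
      · linarith [q2.1]
      · linarith [q2.2]
  -- the sum
  have hcard : (Finset.Icc (-3 : ℤ) 3).card = 7 := by decide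
  have h7 : ∀ x : ℝ, 0 ≤ x → (7 : ℕ) • ENNReal.ofReal x = ENNReal.ofReal (7 * x) := by
    intro x _
    rw [nsmul_eq_mul, ENNReal.ofReal_mul (by norm_num)]
    congr 1
    simp
  have h49 : ∀ t : T, volume (⋃ g ∈ Finset.Icc (-3 : ℤ) 3, ⋃ r ∈ Finset.Icc (-3 : ℤ) 3, B t.1 g r) ≤
      ENNReal.ofReal (161700 * D / η) * ENNReal.ofReal ((2 : ℝ) ^ (a + w₂)) := by
    intro t
    have h2 : ∀ g ∈ Finset.Icc (-3 : ℤ) 3, volume (⋃ r ∈ Finset.Icc (-3 : ℤ) 3, B t.1 g r) ≤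
        ENNReal.ofReal (7 * κ) := by
      intro g _
      refine (measure_biUnion_finset_le _ _).trans ?_
      refine (Finset.sum_le_sum fun r _ => hBv t.1 g r).trans ?_
      rw [Finset.sum_const, hcard, h7 κ hκ0.le]
    refine (measure_biUnion_finset_le _ _).trans ((Finset.sum_le_sum h2).trans ?_)
    rw [Finset.sum_const, hcard, h7 _ (by positivity), ← ENNReal.ofReal_mul (by positivity)]
    apply ENNReal.ofReal_le_ofReal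
    rw [hκ, zpow_add₀ (by norm_num : (2 : ℝ) ≠ 0)]
    apply le_of_eq
    ring
  refine (measure_mono hcov).trans ((measure_iUnion_le _).trans
    ((ENNReal.tsum_le_tsum h49).trans ?_))
  rw [ENNReal.tsum_mul_left]
  exact mul_le_mul_right hvolV _

end Pool.Agent.Helper64.ES
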